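import Pool.Agent.H92.EZ.Targets

/-!
EZA: the initial positions which reach a plank near the quadric are near the quadric.
-/

set_option autoImplicit false

namespace Pool.Agent.H49.EZ

open MeasureTheory Set FourierTransform
open scoped ENNReal NNReal RealInnerProductSpace
open Pool.Agent.H83.LS (EE)
open Pool.Agent.H83.G (Z Lo ph)
open Pool.Agent.H81.GT (tz Qz Yz Wz sg Th)
open Pool.Agent.H92.EZ (Qd sgm ldz dsg T_EZA)

section alg

variable {n : ℕ}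

/-- the bilinear form -/
noncomputable def Bf (u d : Z n) : ℝ := ⟪u.2.1, d.2.1⟫ - 2 * (u.1 * d.2.2 + u.2.2 * d.1)

/-- the remainder of a vector after its null part -/
noncomputable def er (d : Z n) (θ : EE n) : Z n := (Qz d θ - ⟪Yz d θ, θ⟫, Yz d θ, 0)

theorem Qd_add (u d : Z n) : Qd (u + d) = Qd u + 2 * Bf u d + Qd d := by
  simp only [Qd, Bf, Prod.fst_add, Prod.snd_add, norm_add_sq_real]
  ring

theorem Qd_sub (u d : Z n) : Qd (u - d) = Qd u - 2 * Bf u d + Qd d := by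
  simp only [Qd, Bf, Prod.fst_sub, Prod.snd_sub, norm_sub_sq_real]
  ring

theorem Qd_eq (d : Z n) (θ : EE n) : Qd d = ‖Yz d θ‖ ^ 2 - 4 * (d.2.2 * Qz d θ) := by
  simp only [Qd, Yz, Qz, norm_add_sq_real, real_inner_smul_right, norm_smul, Real.norm_eq_abs,
    mul_pow, sq_abs]
  ring

theorem Bf_dec (u d : Z n) (θ : EE n) : Bf u d = d.2.2 * (-2 * Qz u θ) + Bf u (er d θ) := by
  simp only [Bf, er, Yz, Qz, inner_add_left, inner_add_right, real_inner_smul_left,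
    real_inner_smul_right, real_inner_self_eq_norm_sq]
  ring

theorem ph_dec (b d : Z n) (θ : EE n) : ph d b = d.2.2 * ph (ldz θ) b + ph (er d θ) b := by
  simp only [ph, ldz, er, Yz, Qz, inner_add_left, inner_neg_left, real_inner_smul_left,
    real_inner_self_eq_norm_sq]
  ring

theorem ph_add (u d b : Z n) : ph (u + d) b = ph u b + ph d b := by
  simp only [ph, Prod.fst_add, Prod.snd_add, inner_add_left]
  ring

theorem ph_sub (u d b : Z n) : ph (u - d) b = ph u b - ph d b := by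
  simp only [ph, Prod.fst_sub, Prod.snd_sub, inner_sub_left]
  ring

theorem sgm_add (α c : ℝ) (b u d : Z n) (θ : EE n) : sgm α b c (u + d) =
    sgm α b c u + d.2.2 * dsg α b u θ + (2 * α * Bf u (er d θ) + ph (er d θ) b) + α * Qd d := by
  simp only [sgm, dsg]
  rw [Qd_add, ph_add, Bf_dec u d θ, ph_dec b d θ]
  ring

theorem sgm_sub (α c : ℝ) (b u d : Z n) (θ : EE n) : sgm α b c (u - d) =
    sgm α b c u - d.2.2 * dsg α b u θ - (2 * α * Bf u (er d θ) + ph (er d θ) b) + α * Qd d := by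
  simp only [sgm, dsg]
  rw [Qd_sub, ph_sub, Bf_dec u d θ, ph_dec b d θ]
  ring

theorem fst_le (u : Z n) : |u.1| ≤ ‖u‖ := norm_fst_le u

theorem snd_le (u : Z n) : ‖u.2.1‖ ≤ ‖u‖ := (norm_fst_le u.2).trans (norm_snd_le u)

theorem trd_le (u : Z n) : |u.2.2| ≤ ‖u‖ := (norm_snd_le u.2).trans (norm_snd_le u)

theorem Bf_le (u d : Z n) : |Bf u d| ≤ 5 * (‖u‖ * ‖d‖) := by
  have h1 : |⟪u.2.1, d.2.1⟫| ≤ ‖u‖ * ‖d‖ := (abs_real_inner_le_norm _ _).trans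
    (mul_le_mul (snd_le u) (snd_le d) (norm_nonneg _) (norm_nonneg _))
  have h2 : |u.1 * d.2.2| ≤ ‖u‖ * ‖d‖ := by
    rw [abs_mul]; exact mul_le_mul (fst_le u) (trd_le d) (abs_nonneg _) (norm_nonneg _)
  have h3 : |u.2.2 * d.1| ≤ ‖u‖ * ‖d‖ := by
    rw [abs_mul]; exact mul_le_mul (trd_le u) (fst_le d) (abs_nonneg _) (norm_nonneg _)
  rw [abs_le] at *
  unfold Bf
  constructor <;> linarith [h1.1, h1.2, h2.1, h2.2, h3.1, h3.2]

theorem Qd_le (u : Z n) : |Qd u| ≤ 5 * (‖u‖ * ‖u‖) := by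
  have h1 : ‖u.2.1‖ ^ 2 ≤ ‖u‖ * ‖u‖ := by
    rw [sq]; exact mul_le_mul (snd_le u) (snd_le u) (norm_nonneg _) (norm_nonneg _)
  have h2 : |u.1 * u.2.2| ≤ ‖u‖ * ‖u‖ := by
    rw [abs_mul]; exact mul_le_mul (fst_le u) (trd_le u) (abs_nonneg _) (norm_nonneg _)
  have h3 : 0 ≤ ‖u.2.1‖ ^ 2 := sq_nonneg _
  rw [abs_le] at *
  unfold Qd
  constructor <;> linarith [h2.1, h2.2]

theorem ph_le (u b : Z n) : |ph u b| ≤ 3 * (‖u‖ * ‖b‖) := by
  have h1 : |⟪u.2.1, b.2.1⟫| ≤ ‖u‖ * ‖b‖ := (abs_real_inner_le_norm _ _).trans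
    (mul_le_mul (snd_le u) (snd_le b) (norm_nonneg _) (norm_nonneg _))
  have h2 : |u.1 * b.1| ≤ ‖u‖ * ‖b‖ := by
    rw [abs_mul]; exact mul_le_mul (fst_le u) (fst_le b) (abs_nonneg _) (norm_nonneg _)
  have h3 : |u.2.2 * b.2.2| ≤ ‖u‖ * ‖b‖ := by
    rw [abs_mul]; exact mul_le_mul (trd_le u) (trd_le b) (abs_nonneg _) (norm_nonneg _)
  rw [abs_le] at *
  unfold ph
  constructor <;> linarith [h1.1, h1.2, h2.1, h2.2, h3.1, h3.2]

theorem er_le (d : Z n) (θ : EE n) (q y t : ℝ) (hq : |Qz d θ| ≤ q) (hy : ‖Yz d θ‖ ≤ y)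
    (ht : ‖θ‖ ≤ t) : ‖er d θ‖ ≤ q + (1 + t) * y := by
  have h1 : |⟪Yz d θ, θ⟫| ≤ y * t := (abs_real_inner_le_norm _ _).trans
    (mul_le_mul hy ht (norm_nonneg _) ((norm_nonneg _).trans hy))
  have q0 : 0 ≤ q := (abs_nonneg _).trans hq
  have y0 : 0 ≤ y := (norm_nonneg _).trans hy
  have t0 : 0 ≤ t := (norm_nonneg _).trans ht
  have h2 : |Qz d θ - ⟪Yz d θ, θ⟫| ≤ q + (1 + t) * y := by
    refine (abs_sub _ _).trans ?_
    nlinarith [mul_nonneg t0 y0]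
  have h3 : ‖Yz d θ‖ ≤ q + (1 + t) * y := by nlinarith [mul_nonneg t0 y0]
  have h4 : ‖(0 : ℝ)‖ ≤ q + (1 + t) * y := by
    rw [norm_zero]; nlinarith [mul_nonneg t0 y0]
  unfold er
  rw [Prod.norm_def, Prod.norm_def]
  exact max_le h2 (max_le h3 h4)

theorem Qz_shift (g : Z n) (θ η : EE n) :
    Qz g θ = Qz g η + ⟪Yz g η, θ - η⟫ + g.2.2 * ‖θ - η‖ ^ 2 := by
  simp only [Qz, Yz, norm_sub_sq_real, inner_add_left, inner_sub_right, real_inner_smul_left,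
    real_inner_self_eq_norm_sq]
  rw [real_inner_comm θ η]
  ring

theorem Qz_add (u g : Z n) (θ : EE n) : Qz (u + g) θ = Qz u θ + Qz g θ := by
  simp only [Qz, Prod.fst_add, Prod.snd_add, inner_add_left]
  ring

theorem sq_diff (θ η : EE n) (δ A : ℝ) (h : ‖θ - η‖ ≤ δ) (hA : ‖θ‖ + ‖η‖ ≤ A) :
    |‖θ‖ ^ 2 - ‖η‖ ^ 2| ≤ δ * A := by
  have h1 : |‖θ‖ - ‖η‖| ≤ δ := (abs_norm_sub_norm_le _ _).trans h
  have h2 : ‖θ‖ ^ 2 - ‖η‖ ^ 2 = (‖θ‖ - ‖η‖) * (‖θ‖ + ‖η‖) := by ring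
  rw [h2, abs_mul, abs_of_nonneg (add_nonneg (norm_nonneg θ) (norm_nonneg η))]
  exact mul_le_mul h1 hA (add_nonneg (norm_nonneg θ) (norm_nonneg η)) ((abs_nonneg _).trans h1)

theorem dsg_diff (α : ℝ) (b u g : Z n) (θ η : EE n) : dsg α b (u + g) θ = dsg α b u η +
    (((‖θ‖ ^ 2 - ‖η‖ ^ 2) * b.1 - 2 * ⟪θ - η, b.2.1⟫) -
    4 * α * (Qz g η + ⟪Yz g η, θ - η⟫ + g.2.2 * ‖θ - η‖ ^ 2 +
      (⟪u.2.1, θ - η⟫ + u.2.2 * (‖θ‖ ^ 2 - ‖η‖ ^ 2)))) := by
  rw [← Qz_shift]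
  simp only [dsg, Qz, ph, ldz, Prod.fst_add, Prod.snd_add, inner_add_left, inner_sub_left,
    inner_sub_right, inner_neg_left, real_inner_smul_left]
  ring

end alg


section numbers

variable {n : ℕ}

theorem Wz_parts (s : ℝ) (z : Z n) (θ : EE n) (hs : 0 < s) :
    1 ≤ Wz s z θ ∧ |Qz z θ| ≤ Wz s z θ := by
  have h1 : 0 ≤ sg s z.2.2 * ‖Yz z θ‖ := by
    refine mul_nonneg ?_ (norm_nonneg _)
    unfold sg
    positivity
  have h2 : 0 ≤ |Qz z θ| := abs_nonneg _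
  unfold Wz
  constructor <;> linarith

theorem Lo_parts (η : EE n) (s lam : ℝ) (g : Z n) (hs : 0 < s) (h : ‖Lo η s g‖ ≤ lam) :
    |Qz g η| ≤ lam ∧ ‖Yz g η‖ ≤ s⁻¹ * lam ∧ |g.2.2| ≤ s⁻¹ ^ 2 * lam := by
  have e1 : (Lo η s g).1 = Qz g η := rfl
  have e2 : (Lo η s g).2.1 = s • Yz g η := rfl
  have e3 : (Lo η s g).2.2 = s ^ 2 * g.2.2 := rfl
  have h1 := (fst_le (Lo η s g)).trans h
  have h2 := (snd_le (Lo η s g)).trans h
  have h3 := (trd_le (Lo η s g)).trans h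
  rw [e1] at h1
  rw [e2, norm_smul, Real.norm_eq_abs, abs_of_pos hs] at h2
  rw [e3, abs_mul, abs_of_pos (pow_pos hs 2)] at h3
  refine ⟨h1, ?_, ?_⟩
  · rw [inv_mul_eq_div, le_div_iff₀ hs, mul_comm]; exact h2
  · rw [inv_pow, inv_mul_eq_div, le_div_iff₀ (pow_pos hs 2), mul_comm]; exact h3

/-- the values of the quadric function and of its derivative after a shift in the plank -/
theorem part1 (s K lam α c : ℝ) (b u g : Z n) (η θ : EE n) (hs : 0 < s) (hs1 : s ≤ 1)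
    (hK : 1 ≤ K) (hKs : K * s ≤ 1) (hl : 1 ≤ lam) (hα : |α| ≤ s ^ 2) (hb : ‖b‖ ≤ 1)
    (hu : ‖u‖ ≤ 4 * s⁻¹ ^ 2) (hsg : |sgm α b c u| ≤ s⁻¹ ^ 2 / K) (hds : |dsg α b u η| ≤ 1 / K)
    (hθη : ‖θ - η‖ ≤ 4 * s) (hθ : ‖θ‖ ≤ 1 / 3) (hη : ‖η‖ ≤ 13 / 3) (hL : ‖Lo η s g‖ ≤ lam) :
    |sgm α b c (u + g)| ≤ 308 * lam ^ 2 * (s⁻¹ ^ 2 / K) ∧
      |dsg α b (u + g) θ| ≤ 504 * lam * K⁻¹ := by
  obtain ⟨g1, g2, g3⟩ := Lo_parts η s lam g hs hL
  have K0 : 0 < K := by linarith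
  set r : ℝ := s⁻¹ with hr
  have hrs : r * s = 1 := inv_mul_cancel₀ hs.ne'
  have hr1 : 1 ≤ r := by rw [hr]; exact (one_le_inv₀ hs).2 hs1
  have r0 : 0 < r := by linarith
  have hKr : K ≤ r := by
    rw [hr, le_inv_comm₀ K0 hs]
    rw [← one_div, le_div_iff₀ K0, mul_comm]; exact hKs
  have hsK : s ≤ K⁻¹ := by
    rw [← one_div, le_div_iff₀ K0, mul_comm]; exact hKs
  have hrK : r ≤ r ^ 2 / K := by
    rw [le_div_iff₀ K0, sq]; exact mul_le_mul_of_nonneg_left hKr r0.le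
  have h1K : 1 ≤ r ^ 2 / K := hr1.trans hrK
  have hs2r : s ^ 2 * r ^ 2 = 1 := by rw [← mul_pow, mul_comm, hrs, one_pow]
  have l0 : 0 < lam := by linarith
  have hs2 : s ^ 2 * r = s := by rw [sq, mul_assoc, mul_comm s r, hrs, mul_one]
  constructor
  · have e1 := er_le g η lam (r * lam) (13 / 3) g1 g2 hη
    have e2 : ‖er g η‖ ≤ 7 * (r * lam) := by
      have : lam ≤ r * lam := by nlinarith
      linarith
    have q1 : |Qd g| ≤ 5 * (r ^ 2 * lam ^ 2) := by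
      rw [Qd_eq g η]
      have a1 : ‖Yz g η‖ ^ 2 ≤ (r * lam) ^ 2 := by
        exact pow_le_pow_left₀ (norm_nonneg _) g2 2
      have a2 : |g.2.2 * Qz g η| ≤ r ^ 2 * lam * lam := by
        rw [abs_mul]; exact mul_le_mul g3 g1 (abs_nonneg _) (by positivity)
      have a3 := sq_nonneg ‖Yz g η‖
      rw [abs_le] at a2 ⊢
      constructor <;> nlinarith [a2.1, a2.2]
    rw [sgm_add α c b u g η]
    have t1 : |g.2.2 * dsg α b u η| ≤ r ^ 2 * lam * (1 / K) := by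
      rw [abs_mul]; exact mul_le_mul g3 hds (abs_nonneg _) (by positivity)
    have t2 : |2 * α * Bf u (er g η)| ≤ 280 * (r * lam) := by
      have b1 := Bf_le u (er g η)
      have b2 : ‖u‖ * ‖er g η‖ ≤ 4 * r ^ 2 * (7 * (r * lam)) :=
        mul_le_mul hu e2 (norm_nonneg _) (by positivity)
      have b3 : |Bf u (er g η)| ≤ 140 * (r ^ 2 * (r * lam)) := by linarith
      calc |2 * α * Bf u (er g η)| = 2 * (|α| * |Bf u (er g η)|) := by
            rw [abs_mul, abs_mul, abs_two]; ring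
        _ ≤ 2 * (s ^ 2 * (140 * (r ^ 2 * (r * lam)))) := by
            refine mul_le_mul_of_nonneg_left ?_ (by norm_num)
            exact mul_le_mul hα b3 (abs_nonneg _) (by positivity)
        _ = 280 * (s ^ 2 * r ^ 2) * (r * lam) := by ring
        _ = 280 * (r * lam) := by rw [hs2r]; ring
    have t3 : |ph (er g η) b| ≤ 21 * (r * lam) := by
      have b1 := ph_le (er g η) b
      have b2 : ‖er g η‖ * ‖b‖ ≤ 7 * (r * lam) * 1 :=
        mul_le_mul e2 hb (norm_nonneg _) (by positivity)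
      linarith
    have t4 : |α * Qd g| ≤ 5 * lam ^ 2 := by
      rw [abs_mul]
      calc |α| * |Qd g| ≤ s ^ 2 * (5 * (r ^ 2 * lam ^ 2)) :=
            mul_le_mul hα q1 (abs_nonneg _) (by positivity)
        _ = 5 * (s ^ 2 * r ^ 2) * lam ^ 2 := by ring
        _ = 5 * lam ^ 2 := by rw [hs2r]; ring
    have p : 0 < r ^ 2 / K := by positivity
    have u1 : r ^ 2 / K ≤ lam ^ 2 * (r ^ 2 / K) := le_mul_of_one_le_left p.le (by nlinarith)
    have u2 : r ^ 2 * lam * (1 / K) ≤ lam ^ 2 * (r ^ 2 / K) := by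
      have : r ^ 2 * lam * (1 / K) = lam * (r ^ 2 / K) := by ring
      rw [this]; exact mul_le_mul_of_nonneg_right (by nlinarith) p.le
    have u3 : r * lam ≤ lam ^ 2 * (r ^ 2 / K) := by
      calc r * lam ≤ (r ^ 2 / K) * lam := mul_le_mul_of_nonneg_right hrK l0.le
        _ ≤ (r ^ 2 / K) * lam ^ 2 := mul_le_mul_of_nonneg_left (by nlinarith) p.le
        _ = _ := by ring
    have u4 : lam ^ 2 ≤ lam ^ 2 * (r ^ 2 / K) := le_mul_of_one_le_right (by positivity) h1K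
    refine le_trans ?_ (show (308 : ℝ) * (lam ^ 2 * (r ^ 2 / K)) ≤ _ from ?_)
    · rw [abs_le] at *
      constructor <;> linarith [t1.1, t1.2, t2.1, t2.2, t3.1, t3.2, t4.1, t4.2, hsg.1, hsg.2]
    · rw [mul_assoc]
  · rw [dsg_diff]
    have d0 : 0 ≤ 4 * s := by positivity
    have n1 := sq_diff θ η (4 * s) (14 / 3) hθη (by linarith)
    have m1 : |(‖θ‖ ^ 2 - ‖η‖ ^ 2) * b.1| ≤ 56 / 3 * s := by
      rw [abs_mul]
      calc _ ≤ 4 * s * (14 / 3) * 1 :=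
            mul_le_mul n1 ((fst_le b).trans hb) (abs_nonneg _) (by positivity)
        _ = _ := by ring
    have m2 : |⟪θ - η, b.2.1⟫| ≤ 4 * s := by
      refine (abs_real_inner_le_norm _ _).trans ?_
      calc _ ≤ 4 * s * 1 := mul_le_mul hθη ((snd_le b).trans hb) (norm_nonneg _) d0
        _ = _ := by ring
    have m3 : |⟪Yz g η, θ - η⟫| ≤ 4 * lam := by
      refine (abs_real_inner_le_norm _ _).trans ?_
      calc _ ≤ r * lam * (4 * s) := mul_le_mul g2 hθη (norm_nonneg _) (by positivity)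
        _ = 4 * (r * s) * lam := by ring
        _ = _ := by rw [hrs]; ring
    have m4 : |g.2.2 * ‖θ - η‖ ^ 2| ≤ 16 * lam := by
      rw [abs_mul, abs_of_nonneg (sq_nonneg ‖θ - η‖)]
      calc _ ≤ r ^ 2 * lam * (4 * s) ^ 2 :=
            mul_le_mul g3 (pow_le_pow_left₀ (norm_nonneg _) hθη 2) (sq_nonneg _) (by positivity)
        _ = 16 * (s ^ 2 * r ^ 2) * lam := by ring
        _ = _ := by rw [hs2r]; ring
    have hrr : r ^ 2 * s = r := by rw [sq, mul_assoc, hrs, mul_one]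
    have m5 : |⟪u.2.1, θ - η⟫| ≤ 16 * r := by
      refine (abs_real_inner_le_norm _ _).trans ?_
      calc _ ≤ 4 * r ^ 2 * (4 * s) :=
            mul_le_mul ((snd_le u).trans hu) hθη (norm_nonneg _) (by positivity)
        _ = 16 * (r ^ 2 * s) := by ring
        _ = _ := by rw [hrr]
    have m6 : |u.2.2 * (‖θ‖ ^ 2 - ‖η‖ ^ 2)| ≤ 224 / 3 * r := by
      rw [abs_mul]
      calc _ ≤ 4 * r ^ 2 * (4 * s * (14 / 3)) :=
            mul_le_mul ((trd_le u).trans hu) n1 (abs_nonneg _) (by positivity)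
        _ = 224 / 3 * (r ^ 2 * s) := by ring
        _ = _ := by rw [hrr]
    set D : ℝ := Qz g η + ⟪Yz g η, θ - η⟫ + g.2.2 * ‖θ - η‖ ^ 2 +
      (⟪u.2.1, θ - η⟫ + u.2.2 * (‖θ‖ ^ 2 - ‖η‖ ^ 2)) with hD
    have m7 : |D| ≤ 21 * lam + 91 * r := by
      rw [abs_le] at *
      constructor <;> rw [hD] <;>
        linarith [g1.1, g1.2, m3.1, m3.2, m4.1, m4.2, m5.1, m5.2, m6.1, m6.2]
    have m8 : |4 * α * D| ≤ 84 * (s ^ 2 * lam) + 364 * s := by
      calc |4 * α * D| = 4 * (|α| * |D|) := by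
            rw [abs_mul, abs_mul, abs_of_pos (by norm_num : (0 : ℝ) < 4)]; ring
        _ ≤ 4 * (s ^ 2 * (21 * lam + 91 * r)) := by
            refine mul_le_mul_of_nonneg_left ?_ (by norm_num)
            exact mul_le_mul hα m7 (abs_nonneg _) (by positivity)
        _ = 84 * (s ^ 2 * lam) + 364 * (s ^ 2 * r) := by ring
        _ = _ := by rw [hs2]
    have Ki : 0 < K⁻¹ := inv_pos.2 K0
    have v1 : s ^ 2 * lam ≤ lam * K⁻¹ := by
      have : s ^ 2 ≤ K⁻¹ := (by nlinarith : s ^ 2 ≤ s).trans hsK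
      calc s ^ 2 * lam ≤ K⁻¹ * lam := mul_le_mul_of_nonneg_right this l0.le
        _ = _ := by ring
    have v2 : s ≤ lam * K⁻¹ := by nlinarith
    have v3 : K⁻¹ ≤ lam * K⁻¹ := by nlinarith
    rw [one_div] at hds
    have v5 : (504 : ℝ) * lam * K⁻¹ = 504 * (lam * K⁻¹) := by ring
    rw [v5]
    rw [abs_le] at *
    constructor <;> linarith [hds.1, hds.2, m1.1, m1.2, m2.1, m2.2, m8.1, m8.2]

/-- the point at time zero -/
theorem part2 (R s K lam α c C t : ℝ) (b u d : Z n) (θ : EE n) (hR : 1 ≤ R) (hs : 0 < s)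
    (hs1 : s ≤ 1) (hRs : 1 ≤ R * s ^ 2) (hK : 1 ≤ K) (hKs : K * s ≤ 1) (hl : 1 ≤ lam) (hC : 1 ≤ C)
    (hα : |α| ≤ s ^ 2) (hb : ‖b‖ ≤ 1) (hθ : ‖θ‖ ≤ 1 / 3) (hu : ‖u‖ ≤ 40 * (s⁻¹ ^ 2 * lam))
    (hsg : |sgm α b c u| ≤ 308 * lam ^ 2 * (s⁻¹ ^ 2 / K)) (hds : |dsg α b u θ| ≤ 504 * lam * K⁻¹)
    (ht : |t| ≤ 84 * (lam * R)) (hq : |Qz d θ| ≤ lam)
    (hd : ‖d‖ ≤ C * (1 + |t| + s⁻¹) * lam ^ 2)
    (hy : ‖Yz d θ‖ ≤ C * lam ^ 2 * (s⁻¹ + Real.sqrt |t|)) :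
    |Qd (u - d)| ≤ 60000 * C ^ 2 * lam ^ 6 * (R * s⁻¹ ^ 2) ∧
      |sgm α b c (u - d)| ≤ 60000 * C ^ 2 * lam ^ 6 * (R / K) := by
  have K0 : 0 < K := by linarith
  have R0 : 0 < R := by linarith
  have l0 : 0 < lam := by linarith
  have C0 : 0 < C := by linarith
  set r : ℝ := s⁻¹ with hr
  have hrs : r * s = 1 := inv_mul_cancel₀ hs.ne'
  have hr1 : 1 ≤ r := by rw [hr]; exact (one_le_inv₀ hs).2 hs1
  have r0 : 0 < r := by linarith
  have hKr : K ≤ r := by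
    rw [hr, le_inv_comm₀ K0 hs]
    rw [← one_div, le_div_iff₀ K0, mul_comm]; exact hKs
  have hsK : s ≤ K⁻¹ := by
    rw [← one_div, le_div_iff₀ K0, mul_comm]; exact hKs
  have hs2r : s ^ 2 * r ^ 2 = 1 := by rw [← mul_pow, mul_comm, hrs, one_pow]
  have hrR : r ^ 2 ≤ R := by
    calc r ^ 2 = r ^ 2 * 1 := by ring
      _ ≤ r ^ 2 * (R * s ^ 2) := mul_le_mul_of_nonneg_left hRs (by positivity)
      _ = R * (s ^ 2 * r ^ 2) := by ring
      _ = R := by rw [hs2r, mul_one]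
  set q : ℝ := Real.sqrt R with hqd
  have q0 : 0 < q := Real.sqrt_pos.2 R0
  have hqq : q * q = R := Real.mul_self_sqrt R0.le
  have hrq : r ≤ q := Real.le_sqrt_of_sq_le hrR
  have hlR : 1 ≤ lam * R := by nlinarith
  have hrlR : r ≤ lam * R := by nlinarith
  have hst : Real.sqrt |t| ≤ 10 * (lam * q) := by
    rw [Real.sqrt_le_left (by positivity)]
    have e1 : (10 * (lam * q)) ^ 2 = 100 * (lam ^ 2 * R) := by rw [← hqq]; ring
    rw [e1]
    have e2 : lam * R ≤ lam ^ 2 * R := mul_le_mul_of_nonneg_right (by nlinarith) R0.le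
    have e3 : 0 < lam * R := by positivity
    linarith
  have hd1 : ‖d‖ ≤ 86 * (C * lam ^ 3 * R) := by
    refine hd.trans ?_
    have e1 : 1 + |t| + r ≤ 86 * (lam * R) := by linarith
    calc C * (1 + |t| + r) * lam ^ 2 ≤ C * (86 * (lam * R)) * lam ^ 2 := by gcongr
      _ = _ := by ring
  have hy1 : ‖Yz d θ‖ ≤ 11 * (C * lam ^ 3 * q) := by
    refine hy.trans ?_
    have e1 : r + Real.sqrt |t| ≤ 11 * (lam * q) := by
      have : q ≤ lam * q := by nlinarith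
      linarith
    calc C * lam ^ 2 * (r + Real.sqrt |t|) ≤ C * lam ^ 2 * (11 * (lam * q)) := by gcongr
      _ = _ := by ring
  have hwd : |d.2.2| ≤ 86 * (C * lam ^ 3 * R) := (trd_le d).trans hd1
  have l46 : lam ^ 4 ≤ lam ^ 6 := pow_le_pow_right₀ hl (by norm_num)
  have l26 : lam ^ 2 ≤ lam ^ 6 := pow_le_pow_right₀ hl (by norm_num)
  have CC : C ≤ C ^ 2 := by nlinarith
  have CC1 : 1 ≤ C ^ 2 := by nlinarith
  have hQd : |Qd d| ≤ 465 * (C ^ 2 * lam ^ 6 * R) := by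
    rw [Qd_eq d θ]
    have a1 : ‖Yz d θ‖ ^ 2 ≤ 121 * (C ^ 2 * lam ^ 6 * R) := by
      calc ‖Yz d θ‖ ^ 2 ≤ (11 * (C * lam ^ 3 * q)) ^ 2 := pow_le_pow_left₀ (norm_nonneg _) hy1 2
        _ = 121 * (C ^ 2 * lam ^ 6 * (q * q)) := by ring
        _ = _ := by rw [hqq]
    have a2 : |d.2.2 * Qz d θ| ≤ 86 * (C ^ 2 * lam ^ 6 * R) := by
      rw [abs_mul]
      calc |d.2.2| * |Qz d θ| ≤ 86 * (C * lam ^ 3 * R) * lam :=
            mul_le_mul hwd hq (abs_nonneg _) (by positivity)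
        _ = 86 * (C * lam ^ 4 * R) := by ring
        _ ≤ 86 * (C ^ 2 * lam ^ 6 * R) := by gcongr
    have a3 := sq_nonneg ‖Yz d θ‖
    have a4 : 0 ≤ C ^ 2 * lam ^ 6 * R := by positivity
    rw [abs_le] at a2 ⊢
    constructor <;> linarith [a2.1, a2.2]
  constructor
  · rw [Qd_sub]
    have b1 : |Qd u| ≤ 8000 * (C ^ 2 * lam ^ 6 * (R * r ^ 2)) := by
      refine (Qd_le u).trans ?_
      calc 5 * (‖u‖ * ‖u‖) ≤ 5 * (40 * (r ^ 2 * lam) * (40 * (r ^ 2 * lam))) := by gcongr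
        _ = 8000 * (1 * lam ^ 2 * (r ^ 2 * r ^ 2)) := by ring
        _ ≤ 8000 * (C ^ 2 * lam ^ 6 * (R * r ^ 2)) := by gcongr
    have b2 : |Bf u d| ≤ 17200 * (C ^ 2 * lam ^ 6 * (R * r ^ 2)) := by
      refine (Bf_le u d).trans ?_
      calc 5 * (‖u‖ * ‖d‖) ≤ 5 * (40 * (r ^ 2 * lam) * (86 * (C * lam ^ 3 * R))) := by gcongr
        _ = 17200 * (C * lam ^ 4 * (R * r ^ 2)) := by ring
        _ ≤ _ := by gcongr
    have b3 : 465 * (C ^ 2 * lam ^ 6 * R) ≤ 465 * (C ^ 2 * lam ^ 6 * (R * r ^ 2)) := by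
      have : R ≤ R * r ^ 2 := le_mul_of_one_le_right R0.le (by nlinarith)
      gcongr
    have b4 : 0 ≤ C ^ 2 * lam ^ 6 * (R * r ^ 2) := by positivity
    have b5 : 60000 * C ^ 2 * lam ^ 6 * (R * r ^ 2) = 60000 * (C ^ 2 * lam ^ 6 * (R * r ^ 2)) := by
      ring
    rw [b5]
    rw [abs_le] at *
    constructor <;> linarith [b1.1, b1.2, b2.1, b2.2, hQd.1, hQd.2]
  · rw [sgm_sub α c b u d θ]
    have Ki : 0 < K⁻¹ := inv_pos.2 K0
    have hqK : q ≤ R / K := by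
      rw [le_div_iff₀ K0, ← hqq]; exact mul_le_mul_of_nonneg_left (hKr.trans hrq) q0.le
    have RK : 0 < R / K := by positivity
    have c1 : |sgm α b c u| ≤ 308 * (C ^ 2 * lam ^ 6 * (R / K)) := by
      refine hsg.trans ?_
      calc 308 * lam ^ 2 * (r ^ 2 / K) = 308 * (1 * lam ^ 2 * (r ^ 2 / K)) := by ring
        _ ≤ 308 * (C ^ 2 * lam ^ 6 * (R / K)) := by gcongr
    have c2 : |d.2.2 * dsg α b u θ| ≤ 43344 * (C ^ 2 * lam ^ 6 * (R / K)) := by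
      rw [abs_mul]
      calc |d.2.2| * |dsg α b u θ| ≤ 86 * (C * lam ^ 3 * R) * (504 * lam * K⁻¹) :=
            mul_le_mul hwd hds (abs_nonneg _) (by positivity)
        _ = 43344 * (C * lam ^ 4 * (R / K)) := by ring
        _ ≤ _ := by gcongr
    have e1 := er_le d θ lam (11 * (C * lam ^ 3 * q)) (1 / 3) hq hy1 hθ
    have e2 : ‖er d θ‖ ≤ 16 * (C * lam ^ 3 * q) := by
      have f1 : lam ≤ C * lam ^ 3 * q := by
        have g1 : lam ≤ lam ^ 3 := le_self_pow₀ hl (by norm_num)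
        have g2 : 1 ≤ q := hr1.trans hrq
        calc lam = 1 * lam * 1 := by ring
          _ ≤ C * lam ^ 3 * q := by gcongr
      linarith
    have c3 : |2 * α * Bf u (er d θ)| ≤ 6400 * (C ^ 2 * lam ^ 6 * (R / K)) := by
      have b1 := Bf_le u (er d θ)
      have b2 : ‖u‖ * ‖er d θ‖ ≤ 40 * (r ^ 2 * lam) * (16 * (C * lam ^ 3 * q)) :=
        mul_le_mul hu e2 (norm_nonneg _) (by positivity)
      have b3 : |Bf u (er d θ)| ≤ 3200 * (r ^ 2 * (C * lam ^ 4 * q)) := by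
        refine b1.trans ((mul_le_mul_of_nonneg_left b2 (by norm_num)).trans (le_of_eq ?_))
        ring
      calc |2 * α * Bf u (er d θ)| = 2 * (|α| * |Bf u (er d θ)|) := by
            rw [abs_mul, abs_mul, abs_two]; ring
        _ ≤ 2 * (s ^ 2 * (3200 * (r ^ 2 * (C * lam ^ 4 * q)))) := by
            refine mul_le_mul_of_nonneg_left ?_ (by norm_num)
            exact mul_le_mul hα b3 (abs_nonneg _) (by positivity)
        _ = 6400 * (s ^ 2 * r ^ 2) * (C * lam ^ 4 * q) := by ring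
        _ = 6400 * (C * lam ^ 4 * q) := by rw [hs2r]; ring
        _ ≤ _ := by gcongr
    have c4 : |ph (er d θ) b| ≤ 48 * (C ^ 2 * lam ^ 6 * (R / K)) := by
      refine (ph_le (er d θ) b).trans ?_
      calc 3 * (‖er d θ‖ * ‖b‖) ≤ 3 * (16 * (C * lam ^ 3 * q) * 1) := by gcongr
        _ = 48 * (C * lam ^ 3 * q) := by ring
        _ ≤ _ := by
            have l36 : lam ^ 3 ≤ lam ^ 6 := pow_le_pow_right₀ hl (by norm_num)
            gcongr
    have c5 : |α * Qd d| ≤ 465 * (C ^ 2 * lam ^ 6 * (R / K)) := by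
      rw [abs_mul]
      have g1 : s ^ 2 ≤ K⁻¹ := (by nlinarith : s ^ 2 ≤ s).trans hsK
      calc |α| * |Qd d| ≤ K⁻¹ * (465 * (C ^ 2 * lam ^ 6 * R)) :=
            mul_le_mul (hα.trans g1) hQd (abs_nonneg _) Ki.le
        _ = _ := by ring
    have c6 : 60000 * C ^ 2 * lam ^ 6 * (R / K) = 60000 * (C ^ 2 * lam ^ 6 * (R / K)) := by ring
    have c7 : 0 ≤ C ^ 2 * lam ^ 6 * (R / K) := by positivity
    rw [c6]
    rw [abs_le] at *
    constructor <;> linarith [c1.1, c1.2, c2.1, c2.2, c3.1, c3.2, c4.1, c4.2, c5.1, c5.2]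

end numbers

theorem pf_EZA (POW : Pool.Agent.H81.GT.T_POW) (LOB : Pool.Agent.H83.G.T_LOB) : T_EZA := by
  intro n
  obtain ⟨C1, hC1, hP⟩ := POW n
  have hm1 : 1 ≤ max C1 1 := le_max_right _ _
  refine ⟨60000 * (max C1 1) ^ 2, by nlinarith, ?_⟩
  intro R s K lam α c b z₀ z z' p η θ hR hs hs1 hRs hK hKs hl hα hb hz0 hz hsg hds hTh hLo hp hW
  have r0 : 0 < s⁻¹ := inv_pos.2 hs
  have hη : ‖η‖ ≤ 13 / 3 := by
    have h1 : ‖η‖ ≤ ‖θ‖ + ‖θ - η‖ := by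
      have : η = θ - (θ - η) := by abel
      calc ‖η‖ = ‖θ - (θ - η)‖ := by rw [← this]
        _ ≤ _ := norm_sub_le _ _
    have h2 := hTh.1
    have h3 := hTh.2
    linarith
  have hg : ‖z' - z‖ ≤ 36 * (s⁻¹ ^ 2 * lam) := by
    have h1 := (LOB n 5 (by norm_num)).2.1 η s (z' - z) (by linarith) hs hs1
    refine h1.trans ?_
    calc (1 + 5) ^ 2 * s⁻¹ ^ 2 * ‖Lo η s (z' - z)‖ ≤ (1 + 5) ^ 2 * s⁻¹ ^ 2 * lam := by gcongr
      _ = _ := by ring
  have e1 : (z - z₀) + (z' - z) = z' - z₀ := by abel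
  have e2 : (z' - z₀) - (z' - p) = p - z₀ := by abel
  have hu : ‖z' - z₀‖ ≤ 40 * (s⁻¹ ^ 2 * lam) := by
    rw [← e1]
    refine (norm_add_le _ _).trans ?_
    have : s⁻¹ ^ 2 ≤ s⁻¹ ^ 2 * lam := le_mul_of_one_le_right (by positivity) hl
    linarith
  obtain ⟨p1, p2⟩ := part1 s K lam α c b (z - z₀) (z' - z) η θ hs hs1 hK hKs hl hα hb hz hsg hds
    hTh.1 hTh.2 hη hLo
  rw [e1] at p1 p2
  have hrR : s⁻¹ ^ 2 ≤ R := by
    have hs2r : s ^ 2 * s⁻¹ ^ 2 = 1 := by rw [← mul_pow, mul_inv_cancel₀ hs.ne', one_pow]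
    calc s⁻¹ ^ 2 = s⁻¹ ^ 2 * 1 := by ring
      _ ≤ s⁻¹ ^ 2 * (R * s ^ 2) := mul_le_mul_of_nonneg_left hRs (by positivity)
      _ = R * (s ^ 2 * s⁻¹ ^ 2) := by ring
      _ = R := by rw [hs2r, mul_one]
  have htz : |tz (z' - p)| ≤ 84 * (lam * R) := by
    have h1 : tz (z' - p) = tz z₀ + ((z' - z₀).1 + (z' - z₀).2.2) := by
      have : tz (z' - p) = tz z' - tz p := by
        simp only [tz, Prod.fst_sub, Prod.snd_sub]; ring
      rw [this, hp]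
      simp only [tz, Prod.fst_sub, Prod.snd_sub]; ring
    rw [h1]
    refine (abs_add_le _ _).trans ?_
    have h2 := (abs_add_le (z' - z₀).1 (z' - z₀).2.2)
    have h3 := (fst_le (z' - z₀)).trans hu
    have h4 := (trd_le (z' - z₀)).trans hu
    have h5 : s⁻¹ ^ 2 * lam ≤ lam * R := by
      rw [mul_comm]; exact mul_le_mul_of_nonneg_left hrR (by linarith)
    have h6 : R ≤ lam * R := le_mul_of_one_le_left (by linarith) hl
    linarith
  obtain ⟨w1, w2⟩ := Wz_parts s (z' - p) θ hs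
  obtain ⟨q1, q2⟩ := hP s (z' - p) θ hs hs1 hTh.2
  have w0 : 0 ≤ Wz s (z' - p) θ := by linarith
  have hW2 : Wz s (z' - p) θ ^ 2 ≤ lam ^ 2 := pow_le_pow_left₀ w0 hW 2
  have hCm : C1 ≤ max C1 1 := le_max_left _ _
  have hCm0 : 0 ≤ max C1 1 := by linarith
  have k1 : ‖z' - p‖ ≤ max C1 1 * (1 + |tz (z' - p)| + s⁻¹) * lam ^ 2 := by
    have : ‖z' - p‖ ≤ 1 + ‖z' - p‖ := by linarith
    refine this.trans (q1.trans ?_)
    have : 0 ≤ |tz (z' - p)| := abs_nonneg _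
    gcongr
  have k2 : ‖Yz (z' - p) θ‖ ≤ max C1 1 * lam ^ 2 * (s⁻¹ + Real.sqrt |tz (z' - p)|) := by
    refine q2.trans ?_
    have : 0 ≤ Real.sqrt |tz (z' - p)| := Real.sqrt_nonneg _
    gcongr
  have := part2 R s K lam α c (max C1 1) (tz (z' - p)) b (z' - z₀) (z' - p) θ hR hs hs1 hRs hK hKs
    hl hm1 hα hb hTh.2 hu p1 p2 htz (w2.trans hW) k1 k2
  rw [e2] at this
  exact this

end Pool.Agent.H49.EZ
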