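import Pool.Agent.H92.EZ.Targets

/-!
EZP: energy of all caps at one time.
-/

set_option autoImplicit false

namespace Pool.Agent.H49.EZ

open MeasureTheory Set FourierTransform
open scoped ENNReal NNReal RealInnerProductSpace
open Pool.Agent.H83.LS Pool.Agent.H19.LS Pool.Agent.H81.GT
open Pool.Agent.H83.G (ctr)
open Pool.Agent.H92.EZ (T_EZP)

section

variable {n : ℕ} {κ : ℝ} {a : EE (n + 1) → ℂ}

/-- energy of a wave at one time -/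
theorem Ua_energy (ha : SymE n κ a) (t : ℝ) {A : ℝ} {f : EE (n + 1) → ℂ} (hf : BCd A f) :
    ∫⁻ x, ‖Ua a t f x‖ₑ ^ 2 = ∫⁻ ξ, ‖a ξ‖ₑ ^ 2 * ‖𝓕 f ξ‖ₑ ^ 2 := by
  have hfi := BCd_int A f hf
  have hfc : Continuous (𝓕 f) := fourier_cont _ hfi
  have hc : Continuous fun ξ : EE (n + 1) => (e (t * ‖ξ‖) * a ξ) * 𝓕 f ξ :=
    (sym_cont ha t).mul hfc
  have hs : HasCompactSupport fun ξ : EE (n + 1) => (e (t * ‖ξ‖) * a ξ) * 𝓕 f ξ :=
    HasCompactSupport.mul_right (HasCompactSupport.mul_left ha.cs)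
  have h1 : Integrable fun ξ : EE (n + 1) => (e (t * ‖ξ‖) * a ξ) * 𝓕 f ξ :=
    hc.integrable_of_hasCompactSupport hs
  have h2 : MemLp (fun ξ : EE (n + 1) => (e (t * ‖ξ‖) * a ξ) * 𝓕 f ξ) 2 :=
    hc.memLp_of_hasCompactSupport hs
  calc ∫⁻ x, ‖Ua a t f x‖ₑ ^ 2
      = ∫⁻ x, ‖𝓕 (fun ξ : EE (n + 1) => (e (t * ‖ξ‖) * a ξ) * 𝓕 f ξ) (-x)‖ₑ ^ 2 := by
        refine lintegral_congr fun x => ?_
        unfold Ua
        rw [MM_fourier]
    _ = ∫⁻ x, ‖𝓕 (fun ξ : EE (n + 1) => (e (t * ‖ξ‖) * a ξ) * 𝓕 f ξ) x‖ₑ ^ 2 :=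
        lintegral_neg_eq_self (μ := (volume : Measure (EE (n + 1))))
          fun x => ‖𝓕 (fun ξ : EE (n + 1) => (e (t * ‖ξ‖) * a ξ) * 𝓕 f ξ) x‖ₑ ^ 2
    _ = ∫⁻ ξ : EE (n + 1), ‖(e (t * ‖ξ‖) * a ξ) * 𝓕 f ξ‖ₑ ^ 2 := plancherelE _ h1 h2
    _ = _ := by
        refine lintegral_congr fun ξ => ?_
        rw [enorm_mul, enorm_mul, mul_pow]
        have : ‖e (t * ‖ξ‖)‖ₑ = 1 := by
          rw [← ofReal_norm, norm_e, ENNReal.ofReal_one]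
        rw [this, one_mul]

theorem BCd_plancherel {A : ℝ} {f : EE (n + 1) → ℂ} (hf : BCd A f) :
    ∫⁻ ξ, ‖𝓕 f ξ‖ₑ ^ 2 = ∫⁻ y, ‖f y‖ₑ ^ 2 := by
  have hfi := BCd_int A f hf
  have hf2 : ∫⁻ y, ‖f y‖ₑ ^ 2 ≠ ⊤ := by
    have h1 : ∫⁻ y, ‖f y‖ₑ ^ 2 ≤ ∫⁻ y, ENNReal.ofReal A * ‖f y‖ₑ := by
      refine lintegral_mono fun y => ?_
      rw [pow_two]
      have : ‖f y‖ₑ ≤ ENNReal.ofReal A := by
        rw [← ofReal_norm]
        exact ENNReal.ofReal_le_ofReal (hf.2.1 y)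
      gcongr
    rw [lintegral_const_mul' _ _ ENNReal.ofReal_ne_top] at h1
    exact (h1.trans_lt (ENNReal.mul_lt_top ENNReal.ofReal_lt_top hfi.2)).ne
  exact plancherelE f hfi (memLp_two_of f hf.1.aestronglyMeasurable hf2)

end

theorem pf_EZP (ACS : Pool.Agent.H81.GT.T_ACS) (PUS : Pool.Agent.H83.G.T_PUS) : T_EZP := by
  intro n κ a hκ ha
  obtain ⟨-, -, C, hC0, -, hC, -⟩ := PUS n
  obtain ⟨D, hD⟩ := ha.1.continuous.bounded_above_of_compact_support ha.cs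
  refine ⟨C * 4 ^ n * (|D| + 1) ^ 2, by positivity, ?_⟩
  intro s t A f I hs hs1 hf
  have hk : ∀ k : Fin n → ℤ, SymE n κ (ac a (ctr s k) s) := fun k =>
    (ACS n κ s (ctr s k) a hκ ha hs).1
  have hpt : ∀ ξ : EE (n + 1), ∑ k ∈ I, ‖ac a (ctr s k) s ξ‖ₑ ^ 2 ≤
      ENNReal.ofReal (C * 4 ^ n * (|D| + 1) ^ 2) := by
    intro ξ
    classical
    have h1 : ∀ k ∈ I, ‖ac a (ctr s k) s ξ‖ₑ ^ 2 ≤
        if ac a (ctr s k) s ξ ≠ 0 then ENNReal.ofReal ((|D| + 1) ^ 2) else 0 := by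
      intro k _
      by_cases h : ac a (ctr s k) s ξ = 0
      · rw [if_neg (by simpa using h), h]
        simp
      · rw [if_pos h, ← ofReal_norm, ← ENNReal.ofReal_pow (norm_nonneg _)]
        refine ENNReal.ofReal_le_ofReal (pow_le_pow_left₀ (norm_nonneg _) ?_ 2)
        have h2 := (ACS n κ s (ctr s k) a hκ ha hs).2.1 ξ
        have h3 := hD ξ
        have h4 := le_abs_self D
        linarith
    refine (Finset.sum_le_sum h1).trans ?_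
    rw [← Finset.sum_filter, Finset.sum_const, nsmul_eq_mul]
    have h5 : ((I.filter fun k => ac a (ctr s k) s ξ ≠ 0).card : ℝ) ≤ C * 4 ^ n := by
      have h6 := hC s (3 * s) ((Pool.Agent.H81.GT.al ξ)⁻¹ • pr ξ)
        (I.filter fun k => ac a (ctr s k) s ξ ≠ 0) hs (by positivity) (by
          intro k hk
          rw [norm_sub_rev]
          exact ((ACS n κ s (ctr s k) a hκ ha hs).2.2 ξ (Finset.mem_filter.1 hk).2).1)
      have h7 : (1 + 3 * s / s : ℝ) = 4 := by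
        field_simp; norm_num
      rwa [h7] at h6
    rw [ENNReal.ofReal_mul (by positivity)]
    refine mul_le_mul_left ?_ _
    rw [← ENNReal.ofReal_natCast]
    exact ENNReal.ofReal_le_ofReal h5
  have hfc : Continuous (𝓕 f) := fourier_cont _ (BCd_int A f hf)
  calc ∑ k ∈ I, ∫⁻ x, ‖Ua (ac a (ctr s k) s) t f x‖ₑ ^ 2
      = ∑ k ∈ I, ∫⁻ ξ, ‖ac a (ctr s k) s ξ‖ₑ ^ 2 * ‖𝓕 f ξ‖ₑ ^ 2 :=
        Finset.sum_congr rfl fun k _ => Ua_energy (hk k) t hf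
    _ = ∫⁻ ξ, ∑ k ∈ I, ‖ac a (ctr s k) s ξ‖ₑ ^ 2 * ‖𝓕 f ξ‖ₑ ^ 2 := by
        rw [lintegral_finset_sum]
        intro k _
        have h8 := (hk k).1.continuous
        exact ((h8.enorm.measurable.pow_const 2)).mul (hfc.enorm.measurable.pow_const 2)
    _ ≤ ∫⁻ ξ, ENNReal.ofReal (C * 4 ^ n * (|D| + 1) ^ 2) * ‖𝓕 f ξ‖ₑ ^ 2 := by
        refine lintegral_mono fun ξ => ?_
        rw [← Finset.sum_mul]
        gcongr
        exact hpt ξ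
    _ = _ := by
        rw [lintegral_const_mul' _ _ ENNReal.ofReal_ne_top, BCd_plancherel hf]

end Pool.Agent.H49.EZ
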